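import Pool.Agent.Helper951_jl.Sparse

/-!
MP_fe497f_lc, Q1: the dense case, and more.

There are absolute constants `C, c > 0` and an exponent `e` such that for all `d ≥ 1`, `0 < ε < 1`, `0 < P ≤ 1 / 2` there
is a distribution (uniform on a finite family) of real `k × d` matrices with the `(ε, P)`-JL property and
`k ≤ C log (1 / P) / ε ^ 2`, such that for EVERY matrix `A` of the family and every set `S` of coordinates the vector
`A x`, for `x` supported on `S`, is computed from the coordinates `x_t`, `t ∈ S`, with at most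
`c (|S| + min (d, k / P)) (log (d + 1)) ^ e` unit-cost operations on real numbers.

For `S = {all coordinates}` this is the dense case `s = d` of the question, for all `ε` and `P`. It answers the question
positively for all sparsities `s` at once when `d ≤ k · polylog (d)` or `1 / P ≤ polylog (d)`.

The computation is a straight-line program. Its operations are: writing a real constant, the sum or the difference of
two available values, the product of an available value with a real constant, and the selection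
`if f ≤ g then p else q` among available values.
-/

namespace Pool.Agent.Results.MP_fe497f_lc.FastJL

open Finset

/-- `Op P f`: the value `f` (a real function of the input vector `y`) is obtained by ONE unit-cost operation from
values in the set `P`. -/
inductive Op {ι : Type} (P : Set ((ι → ℝ) → ℝ)) : ((ι → ℝ) → ℝ) → Prop
  /-- a real constant -/
  | const (c : ℝ) : Op P (fun _ => c)
  /-- the sum of two available values -/
  | add (f g : (ι → ℝ) → ℝ) (hf : f ∈ P) (hg : g ∈ P) : Op P (fun y => f y + g y)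
  /-- the difference of two available values -/
  | sub (f g : (ι → ℝ) → ℝ) (hf : f ∈ P) (hg : g ∈ P) : Op P (fun y => f y - g y)
  /-- the product of an available value with a real constant -/
  | smul (c : ℝ) (f : (ι → ℝ) → ℝ) (hf : f ∈ P) : Op P (fun y => c * f y)
  /-- comparison of two available values and selection of one of two available values -/
  | sel (f g p q : (ι → ℝ) → ℝ) (hf : f ∈ P) (hg : g ∈ P) (hp : p ∈ P) (hq : q ∈ P) :
      Op P (fun y => if f y ≤ g y then p y else q y)

/-- The values which are available after `t` steps of a computation with step values `v 0, v 1, ...`: the input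
coordinates and `v 0, ..., v (t - 1)`. -/
def Avail {ι : Type} (v : ℕ → (ι → ℝ) → ℝ) (t : ℕ) : Set ((ι → ℝ) → ℝ) :=
  {f | (∃ i, f = fun y => y i) ∨ ∃ s < t, f = v s}

/-- `RunsIn T F`: there is a straight-line program with `T` unit-cost operations which computes the map `F`: each step
value is obtained by one operation from the values available before it, and at the end all coordinates of `F y` are
available. -/
def RunsIn {ι : Type} {k : ℕ} (T : ℕ) (F : (ι → ℝ) → (Fin k → ℝ)) : Prop :=
  ∃ v : ℕ → (ι → ℝ) → ℝ, (∀ t < T, Op (Avail v t) (v t)) ∧ ∀ j, (fun y => F y j) ∈ Avail v T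

/-- The Euclidean norm. -/
noncomputable def norm2 {n : ℕ} (x : Fin n → ℝ) : ℝ := Real.sqrt (∑ i, x i ^ 2)

/-- The uniform distribution on the matrices `A 0, ..., A (r - 1)` has the `(ε, P)`-JL property: for every `x`, at least
the fraction `1 - P` of these matrices satisfies `(1 - ε) ‖x‖ ≤ ‖A x‖ ≤ (1 + ε) ‖x‖`. -/
def IsJL {d k r : ℕ} (A : Fin r → Matrix (Fin k) (Fin d) ℝ) (ε P : ℝ) : Prop :=
  0 < r ∧ ∀ x : Fin d → ℝ, (1 - P) * r ≤
    Nat.card {i : Fin r // (1 - ε) * norm2 x ≤ norm2 ((A i).mulVec x) ∧ norm2 ((A i).mulVec x) ≤ (1 + ε) * norm2 x}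

theorem op_mono {ι : Type} {P P' : Set ((ι → ℝ) → ℝ)} {f : (ι → ℝ) → ℝ} (h : Op P f) (hP : P ⊆ P') :
    Op P' f := by
  cases h with
  | const c => exact Op.const c
  | add f g hf hg => exact Op.add f g (hP hf) (hP hg)
  | sub f g hf hg => exact Op.sub f g (hP hf) (hP hg)
  | smul c f hf => exact Op.smul c f (hP hf)
  | sel f g p q hf hg hp hq => exact Op.sel f g p q (hP hf) (hP hg) (hP hp) (hP hq)

theorem op_of_instr {ι : Type} {P : Set ((ι → ℝ) → ℝ)} {f : (ι → ℝ) → ℝ}
    (h : Helper951_sr.Instr P f) : Op P f := by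
  cases h with
  | const c => exact Op.const c
  | add f g hf hg => exact Op.add f g hf hg
  | sub f g hf hg => exact Op.sub f g hf hg
  | smul c f hf => exact Op.smul c f hf
  | sel f g p q hf hg hp hq => exact Op.sel f g p q hf hg hp hq

theorem exists_steps {ι : Type} {L : List ((ι → ℝ) → ℝ)}
    (h : Helper951_sr.SLP {f : (ι → ℝ) → ℝ | ∃ i, f = fun y => y i} L) :
    ∃ v : ℕ → (ι → ℝ) → ℝ, (∀ t < L.length, Op (Avail v t) (v t)) ∧
      ∀ g ∈ L, ∃ s < L.length, g = v s := by
  induction h with
  | nil => exact ⟨fun _ _ => 0, by simp, by simp⟩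
  | cons L f _ hf ih =>
    obtain ⟨v, h1, h2⟩ := ih
    refine ⟨fun t => if t < L.length then v t else f, ?_, ?_⟩
    · intro t ht
      rw [List.length_cons] at ht
      rcases Nat.lt_succ_iff_lt_or_eq.1 ht with ht' | ht'
      · have h3 := h1 t ht'
        simp only [ht', if_true]
        refine op_mono h3 ?_
        rintro g (hg | ⟨s, hs, rfl⟩)
        · exact Or.inl hg
        · exact Or.inr ⟨s, hs, (if_pos (hs.trans ht')).symm⟩
      · subst ht'
        simp only [lt_irrefl, if_false]
        refine op_mono (op_of_instr hf) ?_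
        rintro g (hg | hg)
        · exact Or.inl hg
        · obtain ⟨s, hs, rfl⟩ := h2 g hg
          exact Or.inr ⟨s, hs, (if_pos hs).symm⟩
    · intro g hg
      rcases List.mem_cons.1 hg with rfl | hg
      · exact ⟨L.length, by simp, by simp⟩
      · obtain ⟨s, hs, rfl⟩ := h2 g hg
        exact ⟨s, by rw [List.length_cons]; omega, (if_pos hs).symm⟩

theorem runsIn_of_comp {ι : Type} {k T : ℕ} {D : (ι → ℝ) → (Fin k → ℝ)}
    (h : Helper951_sr.Comp T {f : (ι → ℝ) → ℝ | ∃ i, f = fun y => y i} {f | ∃ j, f = fun y => D y j}) :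
    RunsIn T D := by
  obtain ⟨L, h1, h2, h3⟩ := h
  obtain ⟨v, h4, h5⟩ := exists_steps h1
  refine ⟨fun t => if t < L.length then v t else fun _ => 0, ?_, ?_⟩
  · intro t _
    by_cases ht : t < L.length
    · simp only [ht, if_true]
      refine op_mono (h4 t ht) ?_
      rintro g (hg | ⟨s, hs, rfl⟩)
      · exact Or.inl hg
      · exact Or.inr ⟨s, hs, (if_pos (hs.trans ht)).symm⟩
    · simp only [ht, if_false]
      exact Op.const 0
  · intro j
    rcases h3 ⟨j, rfl⟩ with hg | hg
    · exact Or.inl hg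
    · obtain ⟨s, hs, hsv⟩ := h5 _ hg
      exact Or.inr ⟨s, lt_of_lt_of_le hs h2, hsv.trans (if_pos hs).symm⟩

/-- **The dense case of Q1 of MP_fe497f_lc (and more).** -/
theorem result : ∃ (C c : ℝ) (e : ℕ), 0 < C ∧ 0 < c ∧ ∀ (d : ℕ) (ε P : ℝ), 1 ≤ d → 0 < ε → ε < 1 → 0 < P →
    P ≤ 1 / 2 → ∃ (k r : ℕ) (A : Fin r → Matrix (Fin k) (Fin d) ℝ),
      (k : ℝ) ≤ C * (Real.log (1 / P) / ε ^ 2) ∧ IsJL A ε P ∧
      ∀ (i : Fin r) (S : Finset (Fin d)), ∃ T : ℕ,
        (T : ℝ) ≤ c * ((S.card + min (d : ℝ) (k / P)) * Real.log (d + 1) ^ e) ∧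
        RunsIn T (fun (y : S → ℝ) (j : Fin k) => ∑ t : S, A i j t * y t) := by
  classical
  obtain ⟨C, c, e, hC, hc, h⟩ := Helper951_jl.jl_sparse
  refine ⟨C, c, e, hC, hc, fun d ε P hd hε0 hε1 hP0 hP => ?_⟩
  obtain ⟨k, r, A, hr, hk, hjl, hf⟩ := h d ε P hd hε0 hε1 hP0 hP
  refine ⟨k, r, fun i => Matrix.of (A i), hk, ⟨hr, fun x => ?_⟩, fun i S => ?_⟩
  · have h1 := hjl x
    have h2 := Helper951_jl.cnt_add_not (fun i : Fin r => (1 - ε) * Helper951_jl.nm x ≤
      Helper951_jl.nm (Helper951_sr.mv (A i) x) ∧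
      Helper951_jl.nm (Helper951_sr.mv (A i) x) ≤ (1 + ε) * Helper951_jl.nm x)
    rw [Fintype.card_fin] at h2
    have h3 : Helper951_jl.cnt (fun i : Fin r => (1 - ε) * Helper951_jl.nm x ≤
        Helper951_jl.nm (Helper951_sr.mv (A i) x) ∧
        Helper951_jl.nm (Helper951_sr.mv (A i) x) ≤ (1 + ε) * Helper951_jl.nm x)
        = (Nat.card {i : Fin r // (1 - ε) * norm2 x ≤ norm2 ((Matrix.of (A i)).mulVec x) ∧
          norm2 ((Matrix.of (A i)).mulVec x) ≤ (1 + ε) * norm2 x} : ℝ) := by
      rw [Helper951_jl.cnt_eq, Nat.card_eq_fintype_card, Fintype.card_subtype]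
      rfl
    rw [← h3]
    linarith
  · obtain ⟨T, hT, hfast⟩ := hf i S
    refine ⟨T, hT, runsIn_of_comp ?_⟩
    have h4 := hfast (S → ℝ) {f : (S → ℝ) → ℝ | ∃ i, f = fun y => y i} (fun y => y) (fun i => ⟨i, rfl⟩)
    have h5 : ∀ (y : S → ℝ) (j : Fin k), Helper951_sr.mv (A i) (Helper951_jl.sp_ext S y) j
        = ∑ t : S, Matrix.of (A i) j t * y t := fun y j => Helper951_jl.sp_ext_sum S y (A i j)
    simp only [h5] at h4
    exact h4

end Pool.Agent.Results.MP_fe497f_lc.FastJL
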